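import Pool.Agent.H.MP_7884fa_an.C

set_option autoImplicit false

namespace Pool.Agent.Results.MP_7884fa_an.Yes

open Pool.Agent.H.MP_7884fa_an

theorem result : ∀ (X Y : Type) [MetricSpace X] [MetricSpace Y], ULF X → ULF Y →
    (∃ f : Y → X, CoarseEmb f) → OnlyCompact X → OnlyCompact Y :=
  fun _ _ _ _ _ hY ⟨_, hf⟩ hX => main hY hf hX

end Pool.Agent.Results.MP_7884fa_an.Yes
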